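import Pool.Agent.Helper50.KP.GoalsF

/-!
# Packet KP-PGA (MP_5a63b6_lc): a program with exactly one active hook
-/

set_option autoImplicit false

namespace Pool.Agent.Helper7.KP

open Pool.Agent.Helper50.KP

theorem vl_ne : vl ((pa⁻¹, pb) : Equiv.Perm (Fin 5) × Equiv.Perm (Fin 5)) ≠ 1 := by
  decide

theorem gPGA (hHKA : Pool.Agent.Helper50.KP.HKA) (hPGI : Pool.Agent.Helper50.KP.PGI)
    (hRIN : Pool.Agent.Helper50.KP.RIN) : Pool.Agent.Helper50.KP.PGA := by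
  intro n P₁ P₂ e B hlt hlen he1 he2 hone
  obtain ⟨he1n, he2n, hne⟩ := hlt e (by simp)
  have hprog : prog n (P₁ ++ e :: P₂) = prog n P₁ ++
      (hook (2 * (n - 1 - max e.1 e.2)) (2 * (max e.1 e.2 - min e.1 e.2) - 1) ++ prog n P₂) := by
    simp [prog]
  -- the first part
  obtain ⟨B₁, hr1, hl1, hB1⟩ := hPGI (Equiv.Perm (Fin 5)) n P₁ B pa
    (fun e' h => hlt e' (by simp [h])) hlen (fun e' h => hone e' (by simp [h]))
  have hz : ∀ x, B[bi n x]? = some (pa⁻¹, pb) → B₁[bi n x]? = some (pa⁻¹, pb) := by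
    intro x hx
    obtain ⟨z', h1, _, h3⟩ := hB1 _ _ hx
    rw [h1, h3 vl_ne]
  have hmax : B₁[bi n (max e.1 e.2)]? = some (pa⁻¹, pb) := by
    rcases max_choice e.1 e.2 with h | h <;> rw [h]
    · exact hz _ he1
    · exact hz _ he2
  have hmin : B₁[bi n (min e.1 e.2)]? = some (pa⁻¹, pb) := by
    rcases min_choice e.1 e.2 with h | h <;> rw [h]
    · exact hz _ he1
    · exact hz _ he2
  -- the active hook
  have hidx : 2 * (n - 1 - max e.1 e.2) + (2 * (max e.1 e.2 - min e.1 e.2) - 1) + 1 =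
      bi n (min e.1 e.2) := by
    unfold bi
    have h1 : max e.1 e.2 < n := max_lt he1n he2n
    have h2 : min e.1 e.2 < max e.1 e.2 := by
      rcases lt_or_gt_of_ne hne with h | h
      · rw [min_eq_left h.le, max_eq_right h.le]; exact h
      · rw [min_eq_right h.le, max_eq_left h.le]; exact h
    omega
  obtain ⟨B₂, hr2, hl2, hB2⟩ := hHKA (2 * (n - 1 - max e.1 e.2))
    (2 * (max e.1 e.2 - min e.1 e.2) - 1) B₁ hmax (by rw [hidx]; exact hmin)
  -- the rest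
  obtain ⟨B₃, hr3, _, _⟩ := hPGI (Equiv.Perm (Fin 5)) n P₂ B₂ pb
    (fun e' h => hlt e' (by simp [h])) (by rw [hl2, hl1]; exact hlen) (by
      intro e' h
      obtain ⟨x, y, hx, hy, hxy⟩ := hone e' (by simp [h])
      obtain ⟨x', hx1, hx2, _⟩ := hB1 _ _ hx
      obtain ⟨y', hy1, hy2, _⟩ := hB1 _ _ hy
      obtain ⟨x'', hx3, hx4⟩ := hB2 _ _ hx1
      obtain ⟨y'', hy3, hy4⟩ := hB2 _ _ hy1
      refine ⟨x'', y'', hx3, hy3, ?_⟩
      rcases hxy with h | h
      · exact Or.inl (hx4 (hx2 h))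
      · exact Or.inr (hy4 (hy2 h)))
  refine ⟨B₃, ?_⟩
  rw [hprog, hRIN.1, hr1]
  show run (hook _ _ ++ prog n P₂) [] pa B₁ = _
  rw [hRIN.1, hr2]
  exact hr3

end Pool.Agent.Helper7.KP
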